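import Pool.Agent.H314.CS.Bar
import Pool.Agent.H314.CS.Smooth

set_option autoImplicit false
open MeasureTheory Filter Topology Set Metric

namespace Pool.Agent.H172R3.GS

open Pool.Agent.H314.Dir Pool.Agent.H314.CS

/-- `g r = log (1 + r^(j+1)) / (j+1)` -/
noncomputable def gm (j : ℕ) (r : ℝ) : ℝ := Real.log (1 + r ^ (j + 1)) / (j + 1)

/-- `4 (j+1) r^j / (1 + r^(j+1))^2` -/
noncomputable def qm (j : ℕ) (r : ℝ) : ℝ := 4 * (j + 1) * r ^ j / (1 + r ^ (j + 1)) ^ 2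

theorem one_add_pow_pos (j : ℕ) {r : ℝ} (hr : 0 ≤ r) : 0 < 1 + r ^ (j + 1) := by positivity

theorem gm_nonneg (j : ℕ) {r : ℝ} (hr : 0 ≤ r) : 0 ≤ gm j r := by
  unfold gm
  refine div_nonneg (Real.log_nonneg ?_) (by positivity)
  have := pow_nonneg hr (j + 1)
  linarith

theorem exp_gm (j : ℕ) {r : ℝ} (hr : 0 ≤ r) : Real.exp (gm j r) ^ (j + 1) = 1 + r ^ (j + 1) := by
  rw [← Real.exp_nat_mul]
  unfold gm
  have : ((j + 1 : ℕ) : ℝ) * (Real.log (1 + r ^ (j + 1)) / (j + 1)) = Real.log (1 + r ^ (j + 1)) := by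
    push_cast; field_simp
  rw [this, Real.exp_log (one_add_pow_pos j hr)]

theorem le_exp_gm (j : ℕ) {r : ℝ} (hr : 0 ≤ r) : r ≤ Real.exp (gm j r) := by
  have h := exp_gm j hr
  refine le_of_pow_le_pow_left₀ (n := j + 1) (by omega) (Real.exp_pos _).le ?_
  rw [h]; linarith

theorem exp_gm_le (j : ℕ) {r : ℝ} (hr : 0 ≤ r) : Real.exp (gm j r) ≤ 1 + r := by
  have h := exp_gm j hr
  refine le_of_pow_le_pow_left₀ (n := j + 1) (by omega) (by linarith) ?_
  rw [h]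
  have := pow_add_pow_le (zero_le_one (α := ℝ)) hr (n := j + 1) (by omega)
  simpa using this

theorem one_add_le (j : ℕ) {r : ℝ} (hr : 0 ≤ r) : 1 + r ≤ 2 * Real.exp (gm j r) := by
  have h := exp_gm j hr
  have h1 := le_exp_gm j hr
  have h2 : 1 ≤ Real.exp (gm j r) := Real.one_le_exp (gm_nonneg j hr)
  linarith

theorem gm_le_log (j : ℕ) {r : ℝ} (hr : 0 ≤ r) : gm j r ≤ Real.log (1 + r) := by
  rw [Real.le_log_iff_exp_le (by linarith)]
  exact exp_gm_le j hr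

theorem log_le_gm (j : ℕ) {r : ℝ} (hr : 0 ≤ r) : Real.log (1 + r) ≤ Real.log 2 + gm j r := by
  rw [Real.log_le_iff_le_exp (by linarith), Real.exp_add, Real.exp_log (by norm_num)]
  exact one_add_le j hr

theorem qm_nonneg (j : ℕ) {r : ℝ} (hr : 0 ≤ r) : 0 ≤ qm j r := by
  unfold qm; positivity

theorem qm_le_exp (j : ℕ) {r : ℝ} (hr : 0 ≤ r) :
    qm j r ≤ 4 * (j + 1) * Real.exp (-((j + 2) * gm j r)) := by
  unfold qm
  have h := exp_gm j hr
  have h1 := le_exp_gm j hr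
  set y := Real.exp (gm j r) with hy
  have hy0 : 0 < y := Real.exp_pos _
  have h3 : Real.exp (-((j + 2) * gm j r)) = (y ^ (j + 2))⁻¹ := by
    rw [Real.exp_neg, hy, ← Real.exp_nat_mul]
    push_cast; ring_nf
  rw [h3, ← h, div_eq_mul_inv]
  rw [mul_assoc]
  refine mul_le_mul_of_nonneg_left ?_ (by positivity)
  have h4 : r ^ j ≤ y ^ j := pow_le_pow_left₀ hr h1 j
  calc r ^ j * ((y ^ (j + 1)) ^ 2)⁻¹ ≤ y ^ j * ((y ^ (j + 1)) ^ 2)⁻¹ :=
        mul_le_mul_of_nonneg_right h4 (by positivity)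
    _ = (y ^ (j + 2))⁻¹ := by
        rw [← pow_mul]
        have : (j + 1) * 2 = j + (j + 2) := by ring
        rw [this, pow_add]
        field_simp

theorem qm_le (j : ℕ) {r : ℝ} (hr : 0 ≤ r) : qm j r ≤ 4 * (j + 1) := by
  refine (qm_le_exp j hr).trans ?_
  have h1 : Real.exp (-((j + 2) * gm j r)) ≤ 1 := by
    rw [Real.exp_le_one_iff]
    have := gm_nonneg j hr
    have : 0 ≤ ((j : ℝ) + 2) * gm j r := by positivity
    linarith
  have h2 : (0 : ℝ) ≤ 4 * (j + 1) := by positivity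
  nlinarith

theorem hasDerivAt_gm (j : ℕ) {r : ℝ} (hr : 0 < 1 + r ^ (j + 1)) :
    HasDerivAt (gm j) (r ^ j / (1 + r ^ (j + 1))) r := by
  have h1 : HasDerivAt (fun r : ℝ => 1 + r ^ (j + 1)) ((j + 1) * r ^ j) r := by
    have := (hasDerivAt_pow (j + 1) r).const_add 1
    simpa using this
  have h2 := (h1.log hr.ne').div_const ((j : ℝ) + 1)
  refine h2.congr_deriv ?_
  have : ((j : ℝ) + 1) ≠ 0 := by positivity
  field_simp

theorem hasDerivAt_gm' (j : ℕ) {r : ℝ} (hr : 0 < 1 + r ^ (j + 1)) :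
    HasDerivAt (fun r : ℝ => r ^ j / (1 + r ^ (j + 1)))
      ((j * r ^ (j - 1) * (1 + r ^ (j + 1)) - r ^ j * ((j + 1) * r ^ j)) / (1 + r ^ (j + 1)) ^ 2) r := by
  have h1 : HasDerivAt (fun r : ℝ => 1 + r ^ (j + 1)) ((j + 1) * r ^ j) r := by
    have := (hasDerivAt_pow (j + 1) r).const_add 1
    simpa using this
  exact (hasDerivAt_pow j r).div h1 hr.ne'

theorem contDiff_gmr {N : WithTop ℕ∞} (j : ℕ) (c : Eu 2) :
    ContDiff ℝ N (fun x : Eu 2 => gm j (‖x - c‖ ^ 2)) := by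
  unfold gm
  refine ContDiff.div_const (ContDiff.log ?_ ?_) _
  · have h1 : ContDiff ℝ N (fun x : Eu 2 => ‖x - c‖ ^ 2) :=
      (contDiff_id.sub contDiff_const).norm_sq ℝ
    exact contDiff_const.add (h1.pow (j + 1))
  · intro x
    exact (one_add_pow_pos j (sq_nonneg _)).ne'

theorem lap_gmr (j : ℕ) (c x : Eu 2) :
    lap (fun x : Eu 2 => gm j (‖x - c‖ ^ 2)) x = qm j (‖x - c‖ ^ 2) := by
  have h0 : 0 ≤ ‖x - c‖ ^ 2 := sq_nonneg _
  have hpos := one_add_pow_pos j h0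
  have hev : ∀ᶠ r in 𝓝 (‖x - c‖ ^ 2), 0 < 1 + r ^ (j + 1) := by
    have : Continuous fun r : ℝ => 1 + r ^ (j + 1) := by fun_prop
    exact this.continuousAt.eventually (lt_mem_nhds hpos)
  rw [lap_radial (g := gm j) (g' := fun r => r ^ j / (1 + r ^ (j + 1)))
    (g'' := fun r => (j * r ^ (j - 1) * (1 + r ^ (j + 1)) - r ^ j * ((j + 1) * r ^ j)) /
      (1 + r ^ (j + 1)) ^ 2) c x
    (hev.mono fun r hr => hasDerivAt_gm j hr) (hasDerivAt_gm' j hpos)
    (contDiff_gmr j c).contDiffAt]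
  set r := ‖x - c‖ ^ 2 with hr
  unfold qm
  have hj : (j : ℝ) * (r * r ^ (j - 1)) = j * r ^ j := by
    rcases Nat.eq_zero_or_pos j with h | h
    · subst h; simp
    · obtain ⟨i, rfl⟩ := Nat.exists_eq_add_of_le' h
      simp only [Nat.add_sub_cancel]
      rw [pow_succ]; ring
  have hne : (1 + r ^ (j + 1)) ≠ 0 := hpos.ne'
  push_cast
  field_simp
  have e : r * (j * r ^ (j - 1) * (1 + r ^ (j + 1)) - (r ^ j) ^ 2 * (j + 1)) =
      j * r ^ j * (1 + r ^ (j + 1)) - r * (r ^ j) ^ 2 * (j + 1) := by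
    calc _ = ((j : ℝ) * (r * r ^ (j - 1))) * (1 + r ^ (j + 1)) - r * (r ^ j) ^ 2 * (j + 1) := by ring
      _ = _ := by rw [hj]
  have e2 : r ^ (j + 1) = r * r ^ j := by rw [pow_succ]; ring
  rw [e2] at e ⊢
  nlinarith [e]

theorem contDiff_logs {N : WithTop ℕ∞} {s : ℝ} (hs : 0 < s) (c : Eu 2) :
    ContDiff ℝ N (fun x : Eu 2 => Real.log (‖x - c‖ ^ 2 + s)) := by
  refine ContDiff.log ?_ ?_
  · have h1 : ContDiff ℝ N (fun x : Eu 2 => ‖x - c‖ ^ 2) :=
      (contDiff_id.sub contDiff_const).norm_sq ℝ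
    exact h1.add contDiff_const
  · intro x
    positivity

theorem lap_logs {s : ℝ} (hs : 0 < s) (c x : Eu 2) :
    lap (fun x : Eu 2 => Real.log (‖x - c‖ ^ 2 + s)) x = 4 * s / (‖x - c‖ ^ 2 + s) ^ 2 := by
  have h0 : 0 ≤ ‖x - c‖ ^ 2 := sq_nonneg _
  have hpos : 0 < ‖x - c‖ ^ 2 + s := by positivity
  have hev : ∀ᶠ r in 𝓝 (‖x - c‖ ^ 2), 0 < r + s := by
    have : Continuous fun r : ℝ => r + s := by fun_prop
    exact this.continuousAt.eventually (lt_mem_nhds hpos)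
  have hd : ∀ r : ℝ, 0 < r + s → HasDerivAt (fun r : ℝ => Real.log (r + s)) (1 / (r + s)) r := by
    intro r hr
    have := ((hasDerivAt_id r).add_const s).log hr.ne'
    simpa using this
  have hd' : ∀ r : ℝ, 0 < r + s → HasDerivAt (fun r : ℝ => 1 / (r + s)) (-1 / (r + s) ^ 2) r := by
    intro r hr
    have := ((hasDerivAt_id r).add_const s).fun_inv hr.ne'
    simpa using this
  rw [lap_radial (g := fun r => Real.log (r + s)) (g' := fun r => 1 / (r + s))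
    (g'' := fun r => -1 / (r + s) ^ 2) c x
    (hev.mono fun r hr => hd r hr) (hd' _ hpos)
    (contDiff_logs hs c).contDiffAt]
  push_cast
  field_simp
  ring

theorem lap_sum {ι : Type*} (s : Finset ι) (f : ι → Eu 2 → ℝ) (x : Eu 2)
    (hf : ∀ i, ContDiff ℝ 2 (f i)) :
    lap (fun y => ∑ i ∈ s, f i y) x = ∑ i ∈ s, lap (f i) x := by
  classical
  induction s using Finset.induction_on with
  | empty => simp [lap_const]
  | insert i s hi ih =>
    simp only [Finset.sum_insert hi]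
    rw [lap_add (hf i).contDiffAt (ContDiff.sum fun k _ => hf k).contDiffAt, ih]

end Pool.Agent.H172R3.GS
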