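import Pool.Agent.H172R3.GS1

set_option autoImplicit false
open MeasureTheory Filter Topology Set Metric

namespace Pool.Agent.H172R3.GS

open Pool.Agent.H314.Dir Pool.Agent.H314.CS

variable {K : ℕ}

/-- `∏ |x - p_k|^(2 n_k)` -/
noncomputable def PP (p : Fin K → Eu 2) (n : Fin K → ℕ) (x : Eu 2) : ℝ :=
  ∏ k, (‖x - p k‖ ^ 2) ^ (n k)

noncomputable def GG (j : ℕ) (p : Fin K → Eu 2) (n : Fin K → ℕ) (x : Eu 2) : ℝ :=
  ∑ k, (n k : ℝ) * gm j (‖x - p k‖ ^ 2)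

noncomputable def EE (j : ℕ) (p : Fin K → Eu 2) (n : Fin K → ℕ) (x : Eu 2) : ℝ :=
  PP p n x * Real.exp (-GG j p n x)

noncomputable def qq (j : ℕ) (p : Fin K → Eu 2) (n : Fin K → ℕ) (x : Eu 2) : ℝ :=
  ∑ k, (n k : ℝ) * qm j (‖x - p k‖ ^ 2)

theorem contDiff_PP {N : WithTop ℕ∞} (p : Fin K → Eu 2) (n : Fin K → ℕ) :
    ContDiff ℝ N (PP p n) := by
  unfold PP
  refine contDiff_prod fun k _ => ?_
  exact ((contDiff_id.sub contDiff_const).norm_sq ℝ).pow _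

theorem contDiff_GG {N : WithTop ℕ∞} (j : ℕ) (p : Fin K → Eu 2) (n : Fin K → ℕ) :
    ContDiff ℝ N (GG j p n) := by
  unfold GG
  exact ContDiff.sum fun k _ => contDiff_const.mul (contDiff_gmr j (p k))

theorem contDiff_EE {N : WithTop ℕ∞} (j : ℕ) (p : Fin K → Eu 2) (n : Fin K → ℕ) :
    ContDiff ℝ N (EE j p n) :=
  (contDiff_PP p n).mul (contDiff_GG j p n).neg.exp

theorem contDiff_qq {N : WithTop ℕ∞} (j : ℕ) (p : Fin K → Eu 2) (n : Fin K → ℕ) :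
    ContDiff ℝ N (qq j p n) := by
  unfold qq qm
  refine ContDiff.sum fun k _ => contDiff_const.mul ?_
  have h1 : ContDiff ℝ N (fun x : Eu 2 => ‖x - p k‖ ^ 2) :=
    (contDiff_id.sub contDiff_const).norm_sq ℝ
  refine ContDiff.div (contDiff_const.mul (h1.pow j)) ((contDiff_const.add (h1.pow (j + 1))).pow 2) ?_
  intro x
  have := one_add_pow_pos j (sq_nonneg ‖x - p k‖)
  positivity

theorem lap_GG (j : ℕ) (p : Fin K → Eu 2) (n : Fin K → ℕ) (x : Eu 2) :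
    lap (GG j p n) x = qq j p n x := by
  unfold GG qq
  rw [lap_sum _ _ _ fun k => contDiff_const.mul (contDiff_gmr j (p k))]
  refine Finset.sum_congr rfl fun k _ => ?_
  rw [lap_const_mul _ (contDiff_gmr j (p k)).contDiffAt, lap_gmr]

theorem GG_nonneg (j : ℕ) (p : Fin K → Eu 2) (n : Fin K → ℕ) (x : Eu 2) : 0 ≤ GG j p n x :=
  Finset.sum_nonneg fun k _ => mul_nonneg (Nat.cast_nonneg _) (gm_nonneg j (sq_nonneg _))

theorem qq_nonneg (j : ℕ) (p : Fin K → Eu 2) (n : Fin K → ℕ) (x : Eu 2) : 0 ≤ qq j p n x :=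
  Finset.sum_nonneg fun k _ => mul_nonneg (Nat.cast_nonneg _) (qm_nonneg j (sq_nonneg _))

theorem qq_le (j : ℕ) (p : Fin K → Eu 2) (n : Fin K → ℕ) (x : Eu 2) :
    qq j p n x ≤ 4 * (j + 1) * ∑ k, (n k : ℝ) := by
  unfold qq
  rw [Finset.mul_sum]
  refine Finset.sum_le_sum fun k _ => ?_
  rw [mul_comm]
  exact mul_le_mul_of_nonneg_right (qm_le j (sq_nonneg _)) (Nat.cast_nonneg _)

theorem EE_eq (j : ℕ) (p : Fin K → Eu 2) (n : Fin K → ℕ) (x : Eu 2) :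
    EE j p n x = ∏ k, (‖x - p k‖ ^ 2 * Real.exp (-gm j (‖x - p k‖ ^ 2))) ^ (n k) := by
  unfold EE PP GG
  rw [← Finset.sum_neg_distrib, Real.exp_sum, ← Finset.prod_mul_distrib]
  refine Finset.prod_congr rfl fun k _ => ?_
  rw [mul_pow, ← Real.exp_nat_mul]
  congr 2
  ring

theorem fac_le_one (j : ℕ) {r : ℝ} (hr : 0 ≤ r) : r * Real.exp (-gm j r) ≤ 1 := by
  rw [Real.exp_neg, ← div_eq_mul_inv, div_le_one (Real.exp_pos _)]
  exact le_exp_gm j hr

theorem fac_nonneg (j : ℕ) {r : ℝ} (hr : 0 ≤ r) : 0 ≤ r * Real.exp (-gm j r) := by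
  have := Real.exp_pos (-gm j r)
  positivity

/-- lower bound of the factor -/
theorem le_fac (j : ℕ) {r s : ℝ} (hs : 0 ≤ s) (hs1 : s ≤ 1) (hr : s ≤ r) :
    s / 2 ≤ r * Real.exp (-gm j r) := by
  have hr0 : 0 ≤ r := hs.trans hr
  have h1 := exp_gm_le j hr0
  rw [Real.exp_neg, ← div_eq_mul_inv]
  have h2 : r / (1 + r) ≤ r / Real.exp (gm j r) :=
    div_le_div_of_nonneg_left hr0 (Real.exp_pos _) h1
  refine le_trans ?_ h2
  rw [div_le_div_iff₀ (by norm_num) (by linarith)]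
  nlinarith

theorem EE_nonneg (j : ℕ) (p : Fin K → Eu 2) (n : Fin K → ℕ) (x : Eu 2) : 0 ≤ EE j p n x := by
  rw [EE_eq]
  exact Finset.prod_nonneg fun k _ => pow_nonneg (fac_nonneg j (sq_nonneg _)) _

theorem EE_le_one (j : ℕ) (p : Fin K → Eu 2) (n : Fin K → ℕ) (x : Eu 2) : EE j p n x ≤ 1 := by
  rw [EE_eq]
  exact Finset.prod_le_one (fun k _ => pow_nonneg (fac_nonneg j (sq_nonneg _)) _)
    fun k _ => pow_le_one₀ (fac_nonneg j (sq_nonneg _)) (fac_le_one j (sq_nonneg _))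

/-- separation of the points -/
theorem exists_sep (p : Fin K → Eu 2) (hp : Function.Injective p) :
    ∃ d : ℝ, 0 < d ∧ d ≤ 1 ∧ ∀ x, ∀ i k, i ≠ k → ‖x - p i‖ ^ 2 < d → d ≤ ‖x - p k‖ ^ 2 := by
  -- minimal distance
  obtain ⟨m, hm0, hm⟩ : ∃ m : ℝ, 0 < m ∧ ∀ i k, i ≠ k → m ≤ ‖p i - p k‖ := by
    classical
    set S : Finset (Fin K × Fin K) := Finset.univ.filter fun q => q.1 ≠ q.2 with hS
    rcases S.eq_empty_or_nonempty with h | h
    · refine ⟨1, one_pos, fun i k hik => ?_⟩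
      exfalso
      have : (i, k) ∈ S := by rw [hS]; simp [hik]
      rw [h] at this
      simp at this
    · obtain ⟨q, hq, hmin⟩ := S.exists_min_image (fun q => ‖p q.1 - p q.2‖) h
      refine ⟨‖p q.1 - p q.2‖, ?_, fun i k hik => hmin (i, k) (by rw [hS]; simp [hik])⟩
      have : q.1 ≠ q.2 := by rw [hS] at hq; simpa using hq
      exact norm_pos_iff.2 (sub_ne_zero.2 (hp.ne this))
  refine ⟨min (m ^ 2 / 4) 1, by positivity, min_le_right _ _, fun x i k hik hlt => ?_⟩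
  by_contra hcon
  rw [not_le] at hcon
  have h1 : ‖x - p i‖ ^ 2 < m ^ 2 / 4 := hlt.trans_le (min_le_left _ _)
  have h2 : ‖x - p k‖ ^ 2 < m ^ 2 / 4 := hcon.trans_le (min_le_left _ _)
  have h3 : ‖x - p i‖ < m / 2 := by
    refine lt_of_pow_lt_pow_left₀ 2 (by linarith) ?_
    calc _ < m ^ 2 / 4 := h1
      _ = (m / 2) ^ 2 := by ring
  have h4 : ‖x - p k‖ < m / 2 := by
    refine lt_of_pow_lt_pow_left₀ 2 (by linarith) ?_
    calc _ < m ^ 2 / 4 := h2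
      _ = (m / 2) ^ 2 := by ring
  have h5 : ‖p i - p k‖ ≤ ‖x - p k‖ + ‖x - p i‖ := by
    have : p i - p k = (x - p k) - (x - p i) := by abel
    rw [this]
    exact norm_sub_le _ _
  linarith [hm i k hik]

/-- lower bound of `E` away from the points -/
theorem EE_lower (j : ℕ) (p : Fin K → Eu 2) (n : Fin K → ℕ) (nb : ℕ) (hn : ∀ k, n k ≤ nb) {d : ℝ}
    (hd0 : 0 < d) (hd1 : d ≤ 1)
    (hd : ∀ x, ∀ i k, i ≠ k → ‖x - p i‖ ^ 2 < d → d ≤ ‖x - p k‖ ^ 2) {s : ℝ} (hs0 : 0 < s)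
    (hs1 : s ≤ 1) (x : Eu 2) (hx : ∀ k, s ≤ ‖x - p k‖ ^ 2) :
    (d / 2) ^ (∑ k, n k) * s ^ nb ≤ EE j p n x := by
  classical
  rw [EE_eq]
  have hd2 : 0 ≤ d / 2 := by linarith
  have hd3 : d / 2 ≤ 1 := by linarith
  by_cases h : ∃ i, ‖x - p i‖ ^ 2 < d
  · obtain ⟨i, hi⟩ := h
    rw [← Finset.mul_prod_erase Finset.univ _ (Finset.mem_univ i),
      ← Finset.add_sum_erase Finset.univ _ (Finset.mem_univ i), pow_add]
    have h1 : (s / 2) ^ n i ≤ (‖x - p i‖ ^ 2 * Real.exp (-gm j (‖x - p i‖ ^ 2))) ^ n i :=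
      pow_le_pow_left₀ (by positivity) (le_fac j hs0.le hs1 (hx i)) _
    have h2 : (d / 2) ^ (∑ k ∈ Finset.univ.erase i, n k) ≤
        ∏ k ∈ Finset.univ.erase i, (‖x - p k‖ ^ 2 * Real.exp (-gm j (‖x - p k‖ ^ 2))) ^ n k := by
      rw [← Finset.prod_pow_eq_pow_sum]
      refine Finset.prod_le_prod (fun k _ => by positivity) fun k hk => ?_
      refine pow_le_pow_left₀ hd2 (le_fac j hd0.le hd1 ?_) _
      exact hd x i k (Finset.ne_of_mem_erase hk).symm hi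
    have h3 : (d / 2) ^ n i * s ^ nb ≤ (s / 2) ^ n i := by
      have e1 : s ^ nb ≤ s ^ n i := pow_le_pow_of_le_one hs0.le hs1 (hn i)
      have e2 : (d / 2) ^ n i ≤ (1 / 2) ^ n i := pow_le_pow_left₀ hd2 (by linarith) _
      calc _ ≤ (1 / 2) ^ n i * s ^ n i := mul_le_mul e2 e1 (by positivity) (by positivity)
        _ = _ := by rw [← mul_pow]; ring
    calc _ = ((d / 2) ^ n i * s ^ nb) * (d / 2) ^ (∑ k ∈ Finset.univ.erase i, n k) := by ring
      _ ≤ (s / 2) ^ n i * (d / 2) ^ (∑ k ∈ Finset.univ.erase i, n k) :=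
        mul_le_mul_of_nonneg_right h3 (by positivity)
      _ ≤ _ := mul_le_mul h1 h2 (by positivity) (pow_nonneg (fac_nonneg j (sq_nonneg _)) _)
  · push Not at h
    have h2 : (d / 2) ^ (∑ k, n k) ≤
        ∏ k, (‖x - p k‖ ^ 2 * Real.exp (-gm j (‖x - p k‖ ^ 2))) ^ n k := by
      rw [← Finset.prod_pow_eq_pow_sum]
      refine Finset.prod_le_prod (fun k _ => by positivity) fun k hk => ?_
      exact pow_le_pow_left₀ hd2 (le_fac j hd0.le hd1 (h k)) _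
    have h3 : s ^ nb ≤ 1 := pow_le_one₀ hs0.le hs1
    calc _ ≤ (d / 2) ^ (∑ k, n k) * 1 := mul_le_mul_of_nonneg_left h3 (by positivity)
      _ ≤ _ := by rw [mul_one]; exact h2

/-- comparison of the `gm` at different points -/
theorem exists_comp (j : ℕ) (p : Fin K → Eu 2) :
    ∃ C : ℝ, 0 ≤ C ∧ ∀ x, ∀ i k, gm j (‖x - p i‖ ^ 2) ≤ gm j (‖x - p k‖ ^ 2) + C := by
  obtain ⟨R, hR⟩ : ∃ R : ℝ, ∀ i k, ‖p i - p k‖ ^ 2 ≤ R := by
    refine ⟨∑ i, ∑ k, ‖p i - p k‖ ^ 2, fun i k => ?_⟩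
    calc _ ≤ ∑ k, ‖p i - p k‖ ^ 2 :=
          Finset.single_le_sum (f := fun k => ‖p i - p k‖ ^ 2) (fun _ _ => sq_nonneg _)
            (Finset.mem_univ k)
      _ ≤ _ := Finset.single_le_sum (f := fun i => ∑ k, ‖p i - p k‖ ^ 2)
            (fun _ _ => Finset.sum_nonneg fun _ _ => sq_nonneg _) (Finset.mem_univ i)
  set R' : ℝ := |R| with hR'
  have hR0 : 0 ≤ R' := abs_nonneg R
  refine ⟨Real.log (2 + 2 * R') + Real.log 2, ?_, fun x i k => ?_⟩
  · have h1 : 0 ≤ Real.log (2 + 2 * R') := Real.log_nonneg (by linarith)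
    have h2 : 0 ≤ Real.log 2 := Real.log_nonneg (by norm_num)
    linarith
  · have ha : (0 : ℝ) ≤ ‖x - p i‖ ^ 2 := sq_nonneg _
    have hb : (0 : ℝ) ≤ ‖x - p k‖ ^ 2 := sq_nonneg _
    have h1 := gm_le_log j ha
    have h2 := log_le_gm j hb
    have h3 : 1 + ‖x - p i‖ ^ 2 ≤ (1 + ‖x - p k‖ ^ 2) * (2 + 2 * R') := by
      have e1 : ‖x - p i‖ ≤ ‖x - p k‖ + ‖p i - p k‖ := by
        have : x - p i = (x - p k) - (p i - p k) := by abel
        rw [this]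
        exact norm_sub_le _ _
      have e2 : ‖x - p i‖ ^ 2 ≤ 2 * ‖x - p k‖ ^ 2 + 2 * ‖p i - p k‖ ^ 2 := by
        have := norm_nonneg (x - p i)
        nlinarith [norm_nonneg (x - p k), norm_nonneg (p i - p k),
          sq_nonneg (‖x - p k‖ - ‖p i - p k‖)]
      have e3 : ‖p i - p k‖ ^ 2 ≤ R' := (hR i k).trans (le_abs_self R)
      nlinarith
    have h4 : Real.log (1 + ‖x - p i‖ ^ 2) ≤ Real.log (1 + ‖x - p k‖ ^ 2) + Real.log (2 + 2 * R') := by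
      rw [← Real.log_mul (by positivity) (by positivity)]
      exact Real.log_le_log (by positivity) h3
    linarith

/-- the background charge is dominated by the weight -/
theorem exists_qq_le (j : ℕ) (p : Fin K → Eu 2) (n : Fin K → ℕ) (a : ℝ) (ha : 0 ≤ a)
    (hj : a * ∑ k, (n k : ℝ) ≤ j + 2) :
    ∃ C : ℝ, 0 < C ∧ ∀ x, qq j p n x ≤ C * Real.exp (-(a * GG j p n x)) := by
  obtain ⟨C, hC0, hC⟩ := exists_comp j p
  set S : ℝ := ∑ k, (n k : ℝ) with hS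
  have hS0 : 0 ≤ S := Finset.sum_nonneg fun _ _ => Nat.cast_nonneg _
  refine ⟨4 * (j + 1) * (S + 1) * Real.exp (a * S * C), by positivity, fun x => ?_⟩
  have key : ∀ k, qm j (‖x - p k‖ ^ 2) ≤
      4 * (j + 1) * (Real.exp (a * S * C) * Real.exp (-(a * GG j p n x))) := by
    intro k
    refine (qm_le_exp j (sq_nonneg _)).trans ?_
    refine mul_le_mul_of_nonneg_left ?_ (by positivity)
    rw [← Real.exp_add]
    refine Real.exp_le_exp.2 ?_
    have h1 : GG j p n x ≤ S * (gm j (‖x - p k‖ ^ 2) + C) := by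
      unfold GG
      rw [hS, Finset.sum_mul]
      exact Finset.sum_le_sum fun i _ => mul_le_mul_of_nonneg_left (hC x i k) (Nat.cast_nonneg _)
    have h2 := mul_le_mul_of_nonneg_left h1 ha
    have h3 := mul_le_mul_of_nonneg_right hj (gm_nonneg j (sq_nonneg ‖x - p k‖))
    nlinarith
  unfold qq
  calc ∑ k, (n k : ℝ) * qm j (‖x - p k‖ ^ 2)
      ≤ ∑ k, (n k : ℝ) * (4 * (j + 1) * (Real.exp (a * S * C) * Real.exp (-(a * GG j p n x)))) :=
        Finset.sum_le_sum fun k _ => mul_le_mul_of_nonneg_left (key k) (Nat.cast_nonneg _)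
    _ = S * (4 * (j + 1) * (Real.exp (a * S * C) * Real.exp (-(a * GG j p n x)))) := by
        rw [← Finset.sum_mul]
    _ ≤ (S + 1) * (4 * (j + 1) * (Real.exp (a * S * C) * Real.exp (-(a * GG j p n x)))) :=
        mul_le_mul_of_nonneg_right (by linarith) (by positivity)
    _ = _ := by ring

end Pool.Agent.H172R3.GS
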