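import Pool.Agent.H172R3.GS2

set_option autoImplicit false
open MeasureTheory Filter Topology Set Metric

namespace Pool.Agent.H172R3.GS

open Pool.Agent.H314.Dir Pool.Agent.H314.CS

variable {K : ℕ}

/-- the nonlinearity -/
noncomputable def bb (j : ℕ) (p : Fin K → Eu 2) (n : Fin K → ℕ) (a κ e g : ℝ) (x : Eu 2)
    (t : ℝ) : ℝ :=
  qq j p n x + g * Real.exp (-(a * GG j p n x)) *
    (Real.exp (a * t - κ * (EE j p n x * Real.exp t)) * (EE j p n x * Real.exp t - e))

theorem contDiff_bb {N : WithTop ℕ∞} (j : ℕ) (p : Fin K → Eu 2) (n : Fin K → ℕ) (a κ e g : ℝ) :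
    ContDiff ℝ N (fun q : Eu 2 × ℝ => bb j p n a κ e g q.1 q.2) := by
  have hG : ContDiff ℝ N (fun q : Eu 2 × ℝ => GG j p n q.1) := (contDiff_GG j p n).comp contDiff_fst
  have hE : ContDiff ℝ N (fun q : Eu 2 × ℝ => EE j p n q.1) := (contDiff_EE j p n).comp contDiff_fst
  have hq : ContDiff ℝ N (fun q : Eu 2 × ℝ => qq j p n q.1) := (contDiff_qq j p n).comp contDiff_fst
  have ht : ContDiff ℝ N (fun q : Eu 2 × ℝ => q.2) := contDiff_snd
  have hEt : ContDiff ℝ N (fun q : Eu 2 × ℝ => EE j p n q.1 * Real.exp q.2) := hE.mul ht.exp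
  unfold bb
  exact hq.add ((contDiff_const.mul (contDiff_const.mul hG).neg.exp).mul
    (((contDiff_const.mul ht).sub (contDiff_const.mul hEt)).exp.mul (hEt.sub contDiff_const)))

/-- the supersolution -/
noncomputable def psi (j : ℕ) (p : Fin K → Eu 2) (M A s : ℝ) (x : Eu 2) : ℝ :=
  M + ∑ k, A * (gm j (‖x - p k‖ ^ 2) - Real.log (‖x - p k‖ ^ 2 + s))

theorem contDiff_psi {N : WithTop ℕ∞} (j : ℕ) (p : Fin K → Eu 2) (M A : ℝ) {s : ℝ} (hs : 0 < s) :
    ContDiff ℝ N (psi j p M A s) := by
  unfold psi
  exact contDiff_const.add (ContDiff.sum fun k _ => contDiff_const.mul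
    ((contDiff_gmr j (p k)).sub (contDiff_logs hs (p k))))

theorem lap_psi (j : ℕ) (p : Fin K → Eu 2) (M A : ℝ) {s : ℝ} (hs : 0 < s) (x : Eu 2) :
    lap (psi j p M A s) x =
      ∑ k, A * (qm j (‖x - p k‖ ^ 2) - 4 * s / (‖x - p k‖ ^ 2 + s) ^ 2) := by
  have h1 : ∀ k : Fin K, ContDiff ℝ 2 (fun x : Eu 2 =>
      A * (gm j (‖x - p k‖ ^ 2) - Real.log (‖x - p k‖ ^ 2 + s))) := fun k =>
    contDiff_const.mul ((contDiff_gmr j (p k)).sub (contDiff_logs hs (p k)))
  unfold psi
  rw [lap_add contDiffAt_const (ContDiff.sum fun k _ => h1 k).contDiffAt, lap_const, zero_add,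
    lap_sum _ _ _ h1]
  refine Finset.sum_congr rfl fun k _ => ?_
  rw [lap_const_mul _ ((contDiff_gmr j (p k)).sub (contDiff_logs hs (p k))).contDiffAt,
    lap_sub (contDiff_gmr j (p k)).contDiffAt (contDiff_logs hs (p k)).contDiffAt, lap_gmr,
    lap_logs hs]

theorem eta_lower (j : ℕ) {r s : ℝ} (hr : 0 ≤ r) (hs : 0 < s) (hs1 : s ≤ 1) :
    -Real.log 2 ≤ gm j r - Real.log (r + s) := by
  have h1 := log_le_gm j hr
  have h2 : Real.log (r + s) ≤ Real.log (1 + r) := Real.log_le_log (by linarith) (by linarith)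
  linarith

theorem eta_upper (j : ℕ) {r T : ℝ} (hr : 0 ≤ r) (hT : 0 ≤ T) :
    gm j r - Real.log (r + Real.exp (-T)) ≤ T := by
  have h1 := gm_le_log j hr
  have hs : 0 < Real.exp (-T) := Real.exp_pos _
  have hs1 : Real.exp (-T) ≤ 1 := by rw [Real.exp_le_one_iff]; linarith
  have h2 : Real.log (1 + r) ≤ T + Real.log (r + Real.exp (-T)) := by
    rw [Real.log_le_iff_le_exp (by linarith), Real.exp_add, Real.exp_log (by linarith), mul_add,
      ← Real.exp_add, add_neg_cancel, Real.exp_zero]
    have : 1 ≤ Real.exp T := Real.one_le_exp hT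
    nlinarith
  linarith

theorem eta_upper' (j : ℕ) {r s d : ℝ} (hd : 0 < d) (hr : d ≤ r) (hs : 0 < s) :
    gm j r - Real.log (r + s) ≤ Real.log (1 + 1 / d) := by
  have hr0 : 0 < r := hd.trans_le hr
  have h1 := gm_le_log j hr0.le
  have h2 : Real.log (1 + r) ≤ Real.log (1 + 1 / d) + Real.log (r + s) := by
    rw [← Real.log_mul (by positivity) (by positivity)]
    refine Real.log_le_log (by linarith) ?_
    have : 1 ≤ 1 / d * r := by
      rw [div_mul_eq_mul_div, one_mul, le_div_iff₀ hd]; linarith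
    have : 0 ≤ 1 / d * s := by positivity
    nlinarith
  linarith

/-- the function `psi` is a supersolution, for suitable parameters -/
theorem exists_super (j : ℕ) (p : Fin K → Eu 2) (hp : Function.Injective p) (n : Fin K → ℕ)
    (hn1 : ∀ k, 1 ≤ n k) (nb : ℕ) (hn : ∀ k, n k ≤ nb) (a κ e g : ℝ) (ha : 0 < a) (hκ : 0 < κ)
    (he : 0 < e) (hg : 0 < g) (hanb : a * nb < 1) :
    ∃ ψ : Eu 2 → ℝ, ∃ B : ℝ, ContDiff ℝ 2 ψ ∧ (∀ x, ψ x ≤ B) ∧ (∀ x, Real.log e ≤ ψ x) ∧
      ∀ x, lap ψ x ≤ bb j p n a κ e g x (ψ x) := by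
  obtain ⟨d, hd0, hd1, hd⟩ := exists_sep p hp
  set A : ℝ := min 1 ((1 - a * nb) / (2 * a)) with hA
  have hA0 : 0 < A := lt_min one_pos (div_pos (by linarith) (by positivity))
  have hA1 : A ≤ 1 := min_le_left _ _
  have hA2 : a * A ≤ (1 - a * nb) / 2 := by
    have : A ≤ (1 - a * nb) / (2 * a) := min_le_right _ _
    rw [le_div_iff₀ (by positivity)] at this
    linarith
  set θ : ℝ := 1 - a * nb - a * A with hθ
  have hθ0 : 0 < θ := by rw [hθ]; linarith
  set N : ℕ := ∑ k, n k with hN
  set c0 : ℝ := Real.log e + K * (A * Real.log 2) - N * Real.log (d / 2) with hc0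
  set C5 : ℝ := Real.exp (a * (c0 + K * (A * Real.log (1 + 1 / d)))) with hC5
  set y : ℝ := A / (g * e * C5) with hy
  have hC50 : 0 < C5 := Real.exp_pos _
  have hy0 : 0 < y := by positivity
  set T : ℝ := -Real.log d + 1 / θ * |Real.log y| with hT
  have hld : 0 ≤ -Real.log d := by
    have := Real.log_nonpos hd0.le hd1
    linarith
  have hT1 : -Real.log d ≤ T := by
    rw [hT]
    have : 0 ≤ 1 / θ * |Real.log y| := by positivity
    linarith
  have hT0 : 0 ≤ T := hld.trans hT1
  set s : ℝ := Real.exp (-T) with hs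
  have hs0 : 0 < s := Real.exp_pos _
  have hs1 : s ≤ 1 := by rw [hs, Real.exp_le_one_iff]; linarith
  have hsd : s ≤ d := by
    rw [hs, ← Real.le_log_iff_exp_le hd0]; linarith
  have hθT : Real.exp (-(θ * T)) ≤ y := by
    rw [← Real.le_log_iff_exp_le hy0]
    have h1 : |Real.log y| ≤ θ * T := by
      rw [hT, mul_add]
      have : θ * (1 / θ * |Real.log y|) = |Real.log y| := by field_simp
      rw [this]
      have : 0 ≤ θ * -Real.log d := mul_nonneg hθ0.le hld
      linarith
    have h2 := neg_abs_le (Real.log y)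
    linarith
  set M : ℝ := c0 + nb * T with hM
  have hlog2 : 0 ≤ Real.log 2 := Real.log_nonneg (by norm_num)
  -- lower bound of psi
  have hlow : ∀ x, M - K * (A * Real.log 2) ≤ psi j p M A s x := by
    intro x
    unfold psi
    have : ∑ k : Fin K, -(A * Real.log 2) ≤
        ∑ k, A * (gm j (‖x - p k‖ ^ 2) - Real.log (‖x - p k‖ ^ 2 + s)) := by
      refine Finset.sum_le_sum fun k _ => ?_
      have := eta_lower j (sq_nonneg ‖x - p k‖) hs0 hs1
      have := mul_le_mul_of_nonneg_left this hA0.le
      linarith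
    rw [Finset.sum_const, Finset.card_univ, Fintype.card_fin, nsmul_eq_mul] at this
    linarith
  have hdl : Real.log (d / 2) ≤ 0 := Real.log_nonpos (by positivity) (by linarith)
  refine ⟨psi j p M A s, M + K * (A * T), contDiff_psi j p M A hs0, ?_, ?_, ?_⟩
  · intro x
    unfold psi
    have : ∑ k, A * (gm j (‖x - p k‖ ^ 2) - Real.log (‖x - p k‖ ^ 2 + s)) ≤
        ∑ k : Fin K, A * T := by
      refine Finset.sum_le_sum fun k _ => ?_
      exact mul_le_mul_of_nonneg_left (eta_upper j (sq_nonneg ‖x - p k‖) hT0) hA0.le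
    rw [Finset.sum_const, Finset.card_univ, Fintype.card_fin, nsmul_eq_mul] at this
    linarith
  · intro x
    refine le_trans ?_ (hlow x)
    rw [hM, hc0]
    have h1 : 0 ≤ (N : ℝ) * -Real.log (d / 2) := mul_nonneg (Nat.cast_nonneg _) (by linarith)
    have h2 : 0 ≤ (nb : ℝ) * T := mul_nonneg (Nat.cast_nonneg _) hT0
    linarith
  · intro x
    rw [lap_psi j p M A hs0 x]
    set P := psi j p M A s x with hP
    have hE0 := EE_nonneg j p n x
    have hGG0 := GG_nonneg j p n x
    have hqsum : ∑ k, A * qm j (‖x - p k‖ ^ 2) ≤ qq j p n x := by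
      unfold qq
      refine Finset.sum_le_sum fun k _ => ?_
      refine mul_le_mul_of_nonneg_right ?_ (qm_nonneg j (sq_nonneg _))
      have : (1 : ℝ) ≤ n k := by exact_mod_cast hn1 k
      linarith
    have hsplit : ∑ k, A * (qm j (‖x - p k‖ ^ 2) - 4 * s / (‖x - p k‖ ^ 2 + s) ^ 2) =
        ∑ k, A * qm j (‖x - p k‖ ^ 2) - ∑ k, A * (4 * s / (‖x - p k‖ ^ 2 + s) ^ 2) := by
      rw [← Finset.sum_sub_distrib]
      exact Finset.sum_congr rfl fun k _ => by ring
    rw [hsplit]
    by_cases hcase : ∀ k, s ≤ ‖x - p k‖ ^ 2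
    · have h1 := EE_lower j p n nb hn hd0 hd1 hd hs0 hs1 x hcase
      have h2 : e ≤ EE j p n x * Real.exp P := by
        have e1 : (d / 2) ^ N * s ^ nb = Real.exp (N * Real.log (d / 2) - nb * T) := by
          rw [sub_eq_add_neg, Real.exp_add, Real.exp_nat_mul, Real.exp_log (by positivity),
            hs, ← Real.exp_nat_mul]
          congr 2
          ring
        have e2 : Real.exp (M - K * (A * Real.log 2)) ≤ Real.exp P := Real.exp_le_exp.2 (hlow x)
        calc e = Real.exp (N * Real.log (d / 2) - nb * T) * Real.exp (M - K * (A * Real.log 2)) := by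
              rw [← Real.exp_add]
              have : (N * Real.log (d / 2) - nb * T) + (M - K * (A * Real.log 2)) = Real.log e := by
                rw [hM, hc0]; ring
              rw [this, Real.exp_log he]
          _ ≤ EE j p n x * Real.exp P := by
              rw [← e1]
              exact mul_le_mul h1 e2 (Real.exp_pos _).le hE0
      have h3 : 0 ≤ ∑ k, A * (4 * s / (‖x - p k‖ ^ 2 + s) ^ 2) :=
        Finset.sum_nonneg fun k _ => by positivity
      unfold bb
      have h4 : 0 ≤ g * Real.exp (-(a * GG j p n x)) *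
          (Real.exp (a * P - κ * (EE j p n x * Real.exp P)) * (EE j p n x * Real.exp P - e)) := by
        refine mul_nonneg (by positivity) (mul_nonneg (Real.exp_pos _).le (by linarith))
      linarith
    · push Not at hcase
      obtain ⟨i, hi⟩ := hcase
      have h1 : A * (1 / s) ≤ ∑ k, A * (4 * s / (‖x - p k‖ ^ 2 + s) ^ 2) := by
        refine le_trans ?_ (Finset.single_le_sum
          (f := fun k => A * (4 * s / (‖x - p k‖ ^ 2 + s) ^ 2)) (fun k _ => by positivity)
          (Finset.mem_univ i))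
        refine mul_le_mul_of_nonneg_left ?_ hA0.le
        rw [div_le_div_iff₀ hs0 (by positivity)]
        have : (‖x - p i‖ ^ 2 + s) ^ 2 ≤ (2 * s) ^ 2 :=
          pow_le_pow_left₀ (by positivity) (by linarith) 2
        nlinarith
      have hup : P ≤ M + A * T + K * (A * Real.log (1 + 1 / d)) := by
        rw [hP]
        unfold psi
        have hl : 0 ≤ Real.log (1 + 1 / d) := Real.log_nonneg (by
          have : 0 < 1 / d := by positivity
          linarith)
        have : ∑ k, A * (gm j (‖x - p k‖ ^ 2) - Real.log (‖x - p k‖ ^ 2 + s)) ≤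
            ∑ k : Fin K, ((if k = i then A * T else 0) + A * Real.log (1 + 1 / d)) := by
          refine Finset.sum_le_sum fun k _ => ?_
          by_cases hk : k = i
          · rw [if_pos hk]
            have h2 := mul_le_mul_of_nonneg_left (eta_upper j (sq_nonneg ‖x - p k‖) hT0) hA0.le
            have h3 : 0 ≤ A * Real.log (1 + 1 / d) := mul_nonneg hA0.le hl
            linarith
          · rw [if_neg hk, zero_add]
            refine mul_le_mul_of_nonneg_left ?_ hA0.le
            refine eta_upper' j hd0 (hd x i k (Ne.symm hk) (hi.trans_le hsd)) hs0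
        rw [Finset.sum_add_distrib, Finset.sum_ite_eq' Finset.univ i, if_pos (Finset.mem_univ i),
          Finset.sum_const, Finset.card_univ, Fintype.card_fin, nsmul_eq_mul] at this
        linarith
      have h5 : g * e * Real.exp (a * P) ≤ A * (1 / s) := by
        have e1 : Real.exp (a * P) ≤ C5 * Real.exp (a * nb * T + a * A * T) := by
          rw [hC5, ← Real.exp_add]
          refine Real.exp_le_exp.2 ?_
          have := mul_le_mul_of_nonneg_left hup ha.le
          rw [hM] at this
          linarith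
        have e2 : 1 / s = Real.exp T := by
          rw [hs, Real.exp_neg, one_div, inv_inv]
        have e3 : Real.exp (a * nb * T + a * A * T) = Real.exp T * Real.exp (-(θ * T)) := by
          rw [← Real.exp_add, hθ]
          congr 1; ring
        have e4 : g * e * C5 * Real.exp (-(θ * T)) ≤ A := by
          have := mul_le_mul_of_nonneg_left hθT (by positivity : 0 ≤ g * e * C5)
          rw [hy, mul_div_cancel₀ _ (by positivity : g * e * C5 ≠ 0)] at this
          exact this
        rw [e2]
        calc g * e * Real.exp (a * P) ≤ g * e * (C5 * Real.exp (a * nb * T + a * A * T)) :=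
              mul_le_mul_of_nonneg_left e1 (by positivity)
          _ = (g * e * C5 * Real.exp (-(θ * T))) * Real.exp T := by rw [e3]; ring
          _ ≤ A * Real.exp T := mul_le_mul_of_nonneg_right e4 (Real.exp_pos _).le
      have h6 : -(g * e * Real.exp (a * P)) ≤ g * Real.exp (-(a * GG j p n x)) *
          (Real.exp (a * P - κ * (EE j p n x * Real.exp P)) * (EE j p n x * Real.exp P - e)) := by
        have hX : 0 ≤ EE j p n x * Real.exp P := mul_nonneg hE0 (Real.exp_pos _).le
        set X := EE j p n x * Real.exp P with hXd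
        have f1 : Real.exp (-(a * GG j p n x)) ≤ 1 := by
          rw [Real.exp_le_one_iff]
          have := mul_nonneg ha.le hGG0
          linarith
        have f2 : Real.exp (a * P - κ * X) ≤ Real.exp (a * P) := by
          refine Real.exp_le_exp.2 ?_
          have := mul_nonneg hκ.le hX
          linarith
        have f3 : Real.exp (-(a * GG j p n x)) * Real.exp (a * P - κ * X) ≤ Real.exp (a * P) := by
          calc _ ≤ 1 * Real.exp (a * P) := mul_le_mul f1 f2 (Real.exp_pos _).le zero_le_one
            _ = _ := one_mul _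
        have f4 : 0 ≤ Real.exp (-(a * GG j p n x)) * Real.exp (a * P - κ * X) := by positivity
        have f5 : -(e * Real.exp (a * P)) ≤
            Real.exp (-(a * GG j p n x)) * Real.exp (a * P - κ * X) * (X - e) := by
          have g1 := mul_le_mul_of_nonneg_right f3 he.le
          have g2 := mul_nonneg f4 hX
          nlinarith
        have := mul_le_mul_of_nonneg_left f5 hg.le
        calc _ = g * -(e * Real.exp (a * P)) := by ring
          _ ≤ _ := this
          _ = _ := by ring
      unfold bb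
      linarith

/-- a constant subsolution, for large coupling -/
theorem exists_sub (j : ℕ) (p : Fin K → Eu 2) (n : Fin K → ℕ) (a κ e : ℝ) (ha : 0 ≤ a)
    (hκ : 0 < κ) (he : 0 < e) (hj : a * ∑ k, (n k : ℝ) ≤ j + 2) :
    ∃ g : ℝ, 0 < g ∧ ∀ x, bb j p n a κ e g x (Real.log e - 1) ≤ 0 := by
  obtain ⟨C, hC0, hC⟩ := exists_qq_le j p n a ha hj
  set w : ℝ := Real.exp (a * (Real.log e - 1) - κ * e) * (e / 2) with hw
  have hw0 : 0 < w := by positivity
  refine ⟨C / w, by positivity, fun x => ?_⟩
  unfold bb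
  have hE0 := EE_nonneg j p n x
  have hE1 := EE_le_one j p n x
  have h1 : Real.exp (Real.log e - 1) ≤ e / 2 := by
    rw [Real.exp_sub, Real.exp_log he]
    refine div_le_div_of_nonneg_left he.le (by norm_num) ?_
    have := Real.add_one_le_exp (1 : ℝ)
    linarith
  set X := EE j p n x * Real.exp (Real.log e - 1) with hX
  have hX0 : 0 ≤ X := mul_nonneg hE0 (Real.exp_pos _).le
  have hX1 : X ≤ e / 2 := by
    calc X ≤ 1 * (e / 2) := mul_le_mul hE1 h1 (Real.exp_pos _).le zero_le_one
      _ = e / 2 := one_mul _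
  have h2 : Real.exp (a * (Real.log e - 1) - κ * e) ≤
      Real.exp (a * (Real.log e - 1) - κ * X) := by
    refine Real.exp_le_exp.2 ?_
    have := mul_le_mul_of_nonneg_left (hX1.trans (by linarith : e / 2 ≤ e)) hκ.le
    linarith
  have h3 : Real.exp (a * (Real.log e - 1) - κ * X) * (X - e) ≤ -w := by
    have : w ≤ Real.exp (a * (Real.log e - 1) - κ * X) * (e - X) := by
      rw [hw]
      exact mul_le_mul h2 (by linarith) (by positivity) (Real.exp_pos _).le
    linarith
  have h4 : 0 ≤ C / w * Real.exp (-(a * GG j p n x)) := by positivity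
  have h5 := mul_le_mul_of_nonneg_left h3 h4
  have h6 : C / w * Real.exp (-(a * GG j p n x)) * -w = -(C * Real.exp (-(a * GG j p n x))) := by
    field_simp
  rw [h6] at h5
  linarith [hC x]

end Pool.Agent.H172R3.GS
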