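import Pool.Agent.H172R3.GS3
import Pool.Agent.H314.CS.Dist

set_option autoImplicit false
open MeasureTheory Filter Topology Set Metric

namespace Pool.Agent.H172R3.GS

open Pool.Agent.H314.Dir Pool.Agent.H314.CS

variable {K : ℕ}

theorem abs_bb_le (j : ℕ) (p : Fin K → Eu 2) (n : Fin K → ℕ) (a κ e g : ℝ) (ha : 0 ≤ a)
    (hκ : 0 ≤ κ) (he : 0 ≤ e) (hg : 0 ≤ g) (B : ℝ) (x : Eu 2) (t : ℝ) (ht : |t| ≤ B) :
    |bb j p n a κ e g x t| ≤
      4 * (j + 1) * ∑ k, (n k : ℝ) + g * (Real.exp (a * B) * (Real.exp B + e)) := by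
  unfold bb
  have hE0 := EE_nonneg j p n x
  have hE1 := EE_le_one j p n x
  have hq0 := qq_nonneg j p n x
  have hq1 := qq_le j p n x
  have hG0 := GG_nonneg j p n x
  have htB := (le_abs_self t).trans ht
  have hX0 : 0 ≤ EE j p n x * Real.exp t := mul_nonneg hE0 (Real.exp_pos _).le
  have hX1 : EE j p n x * Real.exp t ≤ Real.exp B := by
    calc _ ≤ 1 * Real.exp B := mul_le_mul hE1 (Real.exp_le_exp.2 htB) (Real.exp_pos _).le zero_le_one
      _ = _ := one_mul _
  set X := EE j p n x * Real.exp t with hX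
  refine (abs_add_le _ _).trans (add_le_add (by rw [abs_of_nonneg hq0]; exact hq1) ?_)
  rw [abs_mul, abs_mul, abs_mul, abs_of_nonneg hg, abs_of_pos (Real.exp_pos _),
    abs_of_pos (Real.exp_pos _), mul_assoc]
  refine mul_le_mul_of_nonneg_left ?_ hg
  have f1 : Real.exp (-(a * GG j p n x)) ≤ 1 := by
    rw [Real.exp_le_one_iff]
    have := mul_nonneg ha hG0
    linarith
  have f2 : Real.exp (a * t - κ * X) ≤ Real.exp (a * B) := by
    refine Real.exp_le_exp.2 ?_
    have := mul_nonneg hκ hX0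
    have := mul_le_mul_of_nonneg_left htB ha
    linarith
  have f3 : |X - e| ≤ Real.exp B + e := by
    rw [abs_le]
    constructor <;> linarith
  calc _ ≤ 1 * (Real.exp (a * B) * (Real.exp B + e)) := by
        refine mul_le_mul f1 (mul_le_mul f2 f3 (abs_nonneg _) (Real.exp_pos _).le) (by positivity)
          zero_le_one
    _ = _ := one_mul _

theorem bb_mono (j : ℕ) (p : Fin K → Eu 2) (n : Fin K → ℕ) (a κ e g : ℝ) (ha : 0 ≤ a)
    (hκ : 0 ≤ κ) (he : 0 ≤ e) (hg : 0 ≤ g) (B : ℝ) (x : Eu 2) (s t : ℝ) (hs : -B ≤ s)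
    (hst : s ≤ t) (ht : t ≤ B) :
    bb j p n a κ e g x t - bb j p n a κ e g x s ≤
      g * (Real.exp (a * B) * ((a + κ * Real.exp B) * (Real.exp B + e) + Real.exp B)) * (t - s) := by
  have hE0 := EE_nonneg j p n x
  have hE1 := EE_le_one j p n x
  have hG0 := GG_nonneg j p n x
  set E := EE j p n x with hE
  set w := Real.exp (-(a * GG j p n x)) with hw
  have f1 : w ≤ 1 := by
    rw [hw, Real.exp_le_one_iff]
    have := mul_nonneg ha hG0
    linarith
  have hw0 : 0 < w := Real.exp_pos _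
  set f : ℝ → ℝ := fun t => Real.exp (a * t - κ * (E * Real.exp t)) * (E * Real.exp t - e) with hf
  set f' : ℝ → ℝ := fun t => Real.exp (a * t - κ * (E * Real.exp t)) *
    (a * 1 - κ * (E * Real.exp t)) * (E * Real.exp t - e) +
    Real.exp (a * t - κ * (E * Real.exp t)) * (E * Real.exp t) with hf'
  have hd : ∀ t, HasDerivAt f (f' t) t := by
    intro t
    have h1 : HasDerivAt (fun t => E * Real.exp t) (E * Real.exp t) t :=
      (Real.hasDerivAt_exp t).const_mul E
    have h2 : HasDerivAt (fun t => a * t - κ * (E * Real.exp t)) (a * 1 - κ * (E * Real.exp t)) t :=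
      ((hasDerivAt_id t).const_mul a).sub (h1.const_mul κ)
    exact h2.exp.mul (h1.sub_const e)
  set C := Real.exp (a * B) * ((a + κ * Real.exp B) * (Real.exp B + e) + Real.exp B) with hC
  have hbd : ∀ t ∈ Icc (-B) B, ‖f' t‖ ≤ C := by
    intro t ht
    have hX0 : 0 ≤ E * Real.exp t := mul_nonneg hE0 (Real.exp_pos _).le
    have hX1 : E * Real.exp t ≤ Real.exp B := by
      calc _ ≤ 1 * Real.exp B :=
            mul_le_mul hE1 (Real.exp_le_exp.2 ht.2) (Real.exp_pos _).le zero_le_one
        _ = _ := one_mul _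
    set X := E * Real.exp t with hX
    have f2 : Real.exp (a * t - κ * X) ≤ Real.exp (a * B) := by
      refine Real.exp_le_exp.2 ?_
      have := mul_nonneg hκ hX0
      have := mul_le_mul_of_nonneg_left ht.2 ha
      linarith
    have f3 : |X - e| ≤ Real.exp B + e := by
      rw [abs_le]
      constructor <;> linarith
    have f4 : |a * 1 - κ * X| ≤ a + κ * Real.exp B := by
      have h5 := mul_nonneg hκ hX0
      have h6 := mul_le_mul_of_nonneg_left hX1 hκ
      rw [abs_le]
      constructor <;> linarith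
    have e1 : f' t = Real.exp (a * t - κ * X) * ((a * 1 - κ * X) * (X - e) + X) := by
      simp only [hf', ← hX]; ring
    rw [e1, Real.norm_eq_abs, abs_mul, abs_of_pos (Real.exp_pos _)]
    refine mul_le_mul f2 ?_ (abs_nonneg _) (Real.exp_pos _).le
    refine (abs_add_le _ _).trans (add_le_add ?_ (by rw [abs_of_nonneg hX0]; exact hX1))
    rw [abs_mul]
    exact mul_le_mul f4 f3 (abs_nonneg _) (by
      have := mul_nonneg hκ (Real.exp_pos B).le
      linarith)
  have hmv := Convex.norm_image_sub_le_of_norm_hasDerivWithin_le (f := f) (f' := f') (C := C)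
    (s := Icc (-B) B) (fun t _ => (hd t).hasDerivWithinAt) hbd (convex_Icc _ _)
    (x := s) (y := t) ⟨hs, hst.trans ht⟩ ⟨hs.trans hst, ht⟩
  rw [Real.norm_eq_abs, Real.norm_eq_abs, abs_of_nonneg (by linarith : 0 ≤ t - s)] at hmv
  have h1 : f t - f s ≤ C * (t - s) := (le_abs_self _).trans hmv
  have hC0 : 0 ≤ C := by
    have := mul_nonneg hκ (Real.exp_pos B).le
    have h2 : 0 ≤ a + κ * Real.exp B := by linarith
    have h3 : 0 ≤ Real.exp B + e := by have := Real.exp_pos B; linarith
    have := Real.exp_pos (a * B)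
    have := Real.exp_pos B
    positivity
  have h2 : bb j p n a κ e g x t - bb j p n a κ e g x s = g * w * (f t - f s) := by
    unfold bb
    simp only [hf, ← hE, ← hw]
    ring
  rw [h2]
  have h3 : g * w * (f t - f s) ≤ g * w * (C * (t - s)) :=
    mul_le_mul_of_nonneg_left h1 (by positivity)
  have h4 : 0 ≤ C * (t - s) := mul_nonneg hC0 (by linarith)
  have h5 : w * (C * (t - s)) ≤ 1 * (C * (t - s)) := mul_le_mul_of_nonneg_right f1 h4
  have h6 := mul_le_mul_of_nonneg_left h5 hg
  linarith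

/-- existence of the regular part -/
theorem exists_t (j : ℕ) (p : Fin K → Eu 2) (hp : Function.Injective p) (n : Fin K → ℕ)
    (hn1 : ∀ k, 1 ≤ n k) (nb : ℕ) (hn : ∀ k, n k ≤ nb) (a κ e : ℝ) (ha : 0 < a) (hκ : 0 < κ)
    (he : 0 < e) (hanb : a * nb < 1) (hj : a * ∑ k, (n k : ℝ) ≤ j + 2) :
    ∃ g : ℝ, 0 < g ∧ ∃ (t : Eu 2 → ℝ) (B : ℝ), ContDiff ℝ ((⊤ : ℕ∞) : WithTop ℕ∞) t ∧
      (∀ x, |t x| ≤ B) ∧ ∀ x, lap t x = bb j p n a κ e g x (t x) := by
  obtain ⟨g, hg, hsub⟩ := exists_sub j p n a κ e ha.le hκ he hj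
  obtain ⟨ψ, B0, hψ, hψB, hψe, hψl⟩ := exists_super j p hp n hn1 nb hn a κ e g ha hκ he hg hanb
  set B : ℝ := |Real.log e - 1| + |B0| + 1 with hB
  have hB0 : 0 < B := by positivity
  set Q : ℝ := 4 * (j + 1) * ∑ k, (n k : ℝ) + g * (Real.exp (a * B) * (Real.exp B + e)) with hQ
  set M : ℝ := g * (Real.exp (a * B) * ((a + κ * Real.exp B) * (Real.exp B + e) + Real.exp B))
    with hM
  have hM0 : 0 < M := by positivity
  have hL1 : -B ≤ Real.log e - 1 := by
    have := neg_abs_le (Real.log e - 1)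
    have := abs_nonneg B0
    linarith
  have hU1 : B0 ≤ B := by
    have := le_abs_self B0
    have := abs_nonneg (Real.log e - 1)
    linarith
  obtain ⟨t, ht, htb, hteq⟩ := barrier_exists (bb j p n a κ e g)
    (contDiff_bb (N := 1) j p n a κ e g).locallyLipschitz B Q M hB0 hM0
    (fun x t ht => abs_bb_le j p n a κ e g ha.le hκ.le he.le hg.le B x t ht)
    (fun x s t h1 h2 h3 => bb_mono j p n a κ e g ha.le hκ.le he.le hg.le B x s t h1 h2 h3)
    (fun _ => Real.log e - 1) ψ
    (fun x => ⟨fun _ => Real.log e - 1, fun _ => Real.log e - 1, fun _ => Real.log e - 1,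
      ⟨contDiffAt_const, by rw [lap_const]; exact hsub x⟩,
      ⟨contDiffAt_const, by rw [lap_const]; exact hsub x⟩,
      ⟨contDiffAt_const, by rw [lap_const]; exact hsub x⟩,
      Eventually.of_forall fun y => by simp⟩)
    (fun x => ⟨ψ, ψ, ⟨hψ.contDiffAt, hψl x⟩, ⟨hψ.contDiffAt, hψl x⟩,
      Eventually.of_forall fun y => by simp⟩)
    (fun x => by have := hψe x; linarith) (fun x => hL1) (fun x => (hψB x).trans hU1)
  have habs : ∀ x, |t x| ≤ B := by
    intro x
    rw [abs_le]
    exact ⟨hL1.trans (htb x).1, (htb x).2.trans ((hψB x).trans hU1)⟩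
  refine ⟨g, hg, t, B, ?_, habs, hteq⟩
  exact smooth_of_lap (bb j p n a κ e g) (contDiff_bb j p n a κ e g) t ht (max B Q)
    (fun x => (habs x).trans (le_max_left _ _))
    (fun x => (abs_bb_le j p n a κ e g ha.le hκ.le he.le hg.le B x (t x) (habs x)).trans
      (le_max_right _ _)) hteq

/-- the equation for the full function `v = t - G` -/
theorem lap_v {j : ℕ} {p : Fin K → Eu 2} {n : Fin K → ℕ} {a κ e g : ℝ} {t : Eu 2 → ℝ}
    (ht : ContDiff ℝ 2 t) (h : ∀ x, lap t x = bb j p n a κ e g x (t x)) (x : Eu 2) :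
    lap (fun y => t y - GG j p n y) x =
      g * Real.exp (a * (t x - GG j p n x) - κ * (PP p n x * Real.exp (t x - GG j p n x))) *
        (PP p n x * Real.exp (t x - GG j p n x) - e) := by
  rw [lap_sub ht.contDiffAt (contDiff_GG j p n).contDiffAt, h, lap_GG]
  unfold bb
  have h1 : PP p n x * Real.exp (t x - GG j p n x) = EE j p n x * Real.exp (t x) := by
    unfold EE
    rw [sub_eq_add_neg, Real.exp_add]; ring
  rw [h1]
  have h2 : a * (t x - GG j p n x) - κ * (EE j p n x * Real.exp (t x)) =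
      -(a * GG j p n x) + (a * t x - κ * (EE j p n x * Real.exp (t x))) := by ring
  rw [h2, Real.exp_add]
  ring

/-! ### energy bound -/

theorem lap_eq_laplacian (f : Eu 2 → ℝ) (x : Eu 2) : Laplacian.laplacian f x = lap f x := by
  rw [InnerProductSpace.laplacian_eq_iteratedFDeriv_orthonormalBasis f
    (EuclideanSpace.basisFun (Fin 2) ℝ)]
  unfold lap
  refine Finset.sum_congr rfl fun i _ => ?_
  congr 1
  funext k
  fin_cases k <;> simp

theorem green' {v φ : Eu 2 → ℝ} (hv : ContDiff ℝ 2 v) (hφ : ContDiff ℝ 2 φ)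
    (hc : HasCompactSupport φ) : ∫ x, v x * lap φ x = ∫ x, lap v x * φ x := by
  have := LL.green hv hφ hc
  simpa only [lap_eq_laplacian] using this

theorem continuous_lap {φ : Eu 2 → ℝ} (hφ : ContDiff ℝ 2 φ) : Continuous (lap φ) := by
  have h := LL.continuous_laplacian hφ
  have e : Laplacian.laplacian φ = lap φ := funext fun x => lap_eq_laplacian φ x
  rwa [e] at h

theorem hasCompactSupport_lap {φ : Eu 2 → ℝ} (hφ : ContDiff ℝ 2 φ) (hc : HasCompactSupport φ) :
    HasCompactSupport (lap φ) := by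
  have h := LL.hasCompactSupport_laplacian hφ hc
  have e : Laplacian.laplacian φ = lap φ := funext fun x => lap_eq_laplacian φ x
  rwa [e] at h

theorem lap_comp_smul {f : Eu 2 → ℝ} (hf : ContDiff ℝ 2 f) (c : ℝ) (x : Eu 2) :
    lap (fun y => f (c • y)) x = c ^ 2 * lap f (c • x) := by
  unfold lap
  rw [Finset.mul_sum]
  refine Finset.sum_congr rfl fun i _ => ?_
  have h := (c • ContinuousLinearMap.id ℝ (Eu 2)).iteratedFDeriv_comp_right (f := f) (n := 2) hf x
    (i := 2) (by norm_num)
  have e : (fun y => f (c • y)) = f ∘ (c • ContinuousLinearMap.id ℝ (Eu 2)) := by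
    funext y; simp
  rw [e, h, ContinuousMultilinearMap.compContinuousLinearMap_apply]
  have h2 := (iteratedFDeriv ℝ 2 f ((c • ContinuousLinearMap.id ℝ (Eu 2)) x)).map_smul_univ
    (fun _ => c) (fun _ => EuclideanSpace.single i (1 : ℝ))
  simp only [Finset.prod_const, Finset.card_univ, Fintype.card_fin, smul_eq_mul] at h2
  simpa using h2

/-- scale invariant cut-off functions -/
theorem exists_cutoff : ∃ C : ℝ, ∀ R : ℝ, 0 < R → ∃ χ : Eu 2 → ℝ, ContDiff ℝ 2 χ ∧
    HasCompactSupport χ ∧ (∀ x, 0 ≤ χ x ∧ χ x ≤ 1) ∧ (∀ x, ‖x‖ ≤ R → χ x = 1) ∧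
    ∫ x, |lap χ x| ≤ C := by
  let b : ContDiffBump (0 : Eu 2) := ⟨1, 2, one_pos, by norm_num⟩
  have hb : ContDiff ℝ 2 (b : Eu 2 → ℝ) := b.contDiff
  refine ⟨∫ x, |lap (b : Eu 2 → ℝ) x|, fun R hR => ⟨fun x => b (R⁻¹ • x), ?_, ?_, ?_, ?_, ?_⟩⟩
  · exact hb.comp (contDiff_const_smul _)
  · have : IsClosedEmbedding (fun x : Eu 2 => R⁻¹ • x) :=
      (Homeomorph.smulOfNeZero R⁻¹ (inv_ne_zero hR.ne')).isClosedEmbedding
    exact b.hasCompactSupport.comp_isClosedEmbedding this
  · intro x
    exact ⟨b.nonneg, b.le_one⟩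
  · intro x hx
    refine b.one_of_mem_closedBall ?_
    rw [mem_closedBall_zero_iff, norm_smul, norm_inv, Real.norm_eq_abs, abs_of_pos hR]
    show R⁻¹ * ‖x‖ ≤ 1
    rw [inv_mul_le_iff₀ hR, mul_one]
    exact hx
  · have h1 : ∀ x, |lap (fun x => b (R⁻¹ • x)) x| = (R⁻¹) ^ 2 * |lap (b : Eu 2 → ℝ) (R⁻¹ • x)| := by
      intro x
      rw [lap_comp_smul hb, abs_mul, abs_of_nonneg (by positivity)]
    simp only [h1]
    rw [integral_const_mul, Measure.integral_comp_smul volume (fun x => |lap (b : Eu 2 → ℝ) x|) R⁻¹]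
    rw [finrank_euclideanSpace_fin, smul_eq_mul, abs_of_pos (by positivity), ← mul_assoc,
      mul_inv_cancel₀ (by positivity), one_mul]

theorem integrable_qq (j : ℕ) (p : Fin K → Eu 2) (n : Fin K → ℕ) : Integrable (qq j p n) := by
  unfold qq
  refine integrable_finsetSum _ fun k _ => Integrable.const_mul ?_ _
  have h1 : Integrable (fun x : Eu 2 => (1 + ‖x‖ ^ 2) ^ (-(4 : ℝ) / 2)) :=
    integrable_rpow_neg_one_add_norm_sq (by rw [finrank_euclideanSpace_fin]; norm_num)
  have h2 := (h1.comp_sub_right (p k)).const_mul (16 * (j + 1))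
  refine h2.mono' ?_ (Eventually.of_forall fun x => ?_)
  · unfold qm
    have hc : Continuous (fun x : Eu 2 => ‖x - p k‖ ^ 2) := by fun_prop
    refine (Continuous.div (continuous_const.mul (hc.pow j))
      ((continuous_const.add (hc.pow (j + 1))).pow 2) fun x => ?_).aestronglyMeasurable
    have := one_add_pow_pos j (sq_nonneg ‖x - p k‖)
    exact (pow_pos this 2).ne'
  · have hr : (0 : ℝ) ≤ ‖x - p k‖ ^ 2 := sq_nonneg _
    rw [Real.norm_eq_abs, abs_of_nonneg (qm_nonneg j hr)]
    refine (qm_le_exp j hr).trans ?_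
    have e1 : (1 + ‖x - p k‖ ^ 2) ^ (-(4 : ℝ) / 2) = ((1 + ‖x - p k‖ ^ 2) ^ 2)⁻¹ := by
      rw [show (-(4 : ℝ) / 2) = -((2 : ℕ) : ℝ) by norm_num, Real.rpow_neg (by positivity),
        Real.rpow_natCast]
    rw [e1]
    have h3 := one_add_le j hr
    have h4 : Real.exp (-((j + 2) * gm j (‖x - p k‖ ^ 2))) ≤
        (Real.exp (gm j (‖x - p k‖ ^ 2)) ^ 2)⁻¹ := by
      rw [← Real.exp_nat_mul, ← Real.exp_neg]
      refine Real.exp_le_exp.2 ?_
      have := mul_nonneg (Nat.cast_nonneg (α := ℝ) j) (gm_nonneg j hr)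
      push_cast
      linarith
    have h5 : (Real.exp (gm j (‖x - p k‖ ^ 2)) ^ 2)⁻¹ ≤ 4 * ((1 + ‖x - p k‖ ^ 2) ^ 2)⁻¹ := by
      rw [← div_eq_mul_inv, ← one_div, div_le_div_iff₀ (by positivity) (by positivity)]
      have := pow_le_pow_left₀ (by positivity) h3 2
      nlinarith
    calc _ ≤ 4 * ((j : ℝ) + 1) * (4 * ((1 + ‖x - p k‖ ^ 2) ^ 2)⁻¹) :=
          mul_le_mul_of_nonneg_left (h4.trans h5) (by positivity)
      _ = _ := by ring

/-- the energy density is integrable -/
theorem integrable_energy {j : ℕ} {p : Fin K → Eu 2} {n : Fin K → ℕ} {e : ℝ} (he : 0 < e)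
    {t : Eu 2 → ℝ} {B : ℝ} (ht : ContDiff ℝ 2 t) (htB : ∀ x, |t x| ≤ B) (F : Eu 2 → ℝ)
    (hF : Continuous F) (hF0 : ∀ x, 0 ≤ F x)
    (hFe : ∀ x, F x = 1 / 4 * lap (fun y => PP p n y * Real.exp (t y - GG j p n y)) x -
      e / 4 * lap (fun y => t y - GG j p n y) x) : Integrable F := by
  obtain ⟨C, hC⟩ := exists_cutoff
  set W : Eu 2 → ℝ := fun y => PP p n y * Real.exp (t y - GG j p n y) with hW
  have hWc : ContDiff ℝ 2 W := (contDiff_PP p n).mul (ht.sub (contDiff_GG j p n)).exp
  have hWb : ∀ x, |W x| ≤ Real.exp B := by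
    intro x
    have h1 : W x = EE j p n x * Real.exp (t x) := by
      simp only [hW]
      unfold EE
      rw [sub_eq_add_neg, Real.exp_add]; ring
    rw [h1, abs_mul, abs_of_nonneg (EE_nonneg j p n x), abs_of_pos (Real.exp_pos _)]
    calc _ ≤ 1 * Real.exp B := mul_le_mul (EE_le_one j p n x)
          (Real.exp_le_exp.2 ((le_abs_self _).trans (htB x))) (Real.exp_pos _).le zero_le_one
      _ = _ := one_mul _
  have hB0 : 0 ≤ B := (abs_nonneg _).trans (htB 0)
  set I : ℝ := 1 / 4 * (Real.exp B * C) + e / 4 * (B * C + ∫ x, qq j p n x) with hI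
  have key : ∀ R : ℝ, 0 < R → ∫ x in closedBall 0 R, F x ≤ I := by
    intro R hR
    obtain ⟨χ, hχ, hχc, hχ01, hχ1, hχC⟩ := hC R hR
    have hint : Integrable (fun x => F x * χ x) :=
      (hF.mul hχ.continuous).integrable_of_hasCompactSupport hχc.mul_left
    have h1 : ∫ x in closedBall 0 R, F x ≤ ∫ x, F x * χ x := by
      rw [← integral_indicator isClosed_closedBall.measurableSet]
      refine integral_mono_of_nonneg (Eventually.of_forall fun x => indicator_nonneg
        (fun x _ => hF0 x) x) hint (Eventually.of_forall fun x => ?_)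
      by_cases hx : x ∈ closedBall (0 : Eu 2) R
      · rw [indicator_of_mem hx]
        rw [mem_closedBall_zero_iff] at hx
        simp only [hχ1 x hx, mul_one, le_refl]
      · rw [indicator_of_notMem hx]
        exact mul_nonneg (hF0 x) (hχ01 x).1
    refine h1.trans ?_
    have hlW : Continuous (lap W) := continuous_lap hWc
    have hlt : Continuous (lap t) := continuous_lap ht
    have hlχ : Continuous (lap χ) := continuous_lap hχ
    have hlχc : HasCompactSupport (lap χ) := hasCompactSupport_lap hχ hχc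
    have i1 : Integrable (fun x => lap W x * χ x) :=
      (hlW.mul hχ.continuous).integrable_of_hasCompactSupport hχc.mul_left
    have i2 : Integrable (fun x => lap t x * χ x) :=
      (hlt.mul hχ.continuous).integrable_of_hasCompactSupport hχc.mul_left
    have i3 : Integrable (fun x => qq j p n x * χ x) :=
      ((contDiff_qq (N := 2) j p n).continuous.mul
        hχ.continuous).integrable_of_hasCompactSupport hχc.mul_left
    have i4 : Integrable (fun x => |lap χ x|) :=
      (hlχ.integrable_of_hasCompactSupport hlχc).abs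
    have e1 : ∀ x, F x * χ x = 1 / 4 * (lap W x * χ x) - e / 4 * (lap t x * χ x) +
        e / 4 * (qq j p n x * χ x) := by
      intro x
      rw [hFe x, lap_sub ht.contDiffAt (contDiff_GG j p n).contDiffAt, lap_GG]
      ring
    have e2 : ∫ x, F x * χ x = 1 / 4 * (∫ x, lap W x * χ x) - e / 4 * (∫ x, lap t x * χ x) +
        e / 4 * ∫ x, qq j p n x * χ x := by
      have i12 : Integrable (fun x => 1 / 4 * (lap W x * χ x) - e / 4 * (lap t x * χ x)) :=
        (i1.const_mul _).sub (i2.const_mul _)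
      simp only [e1]
      rw [integral_add i12 (i3.const_mul _),
        integral_sub (i1.const_mul _) (i2.const_mul _), integral_const_mul, integral_const_mul,
        integral_const_mul]
    have bnd : ∀ (f : Eu 2 → ℝ) (b : ℝ), ContDiff ℝ 2 f → (∀ x, |f x| ≤ b) → 0 ≤ b →
        |∫ x, lap f x * χ x| ≤ b * C := by
      intro f b hf hfb hb0
      rw [← green' hf hχ hχc]
      calc |∫ x, f x * lap χ x| ≤ ∫ x, |f x * lap χ x| := abs_integral_le_integral_abs
        _ ≤ ∫ x, b * |lap χ x| := by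
            refine integral_mono_of_nonneg (Eventually.of_forall fun x => abs_nonneg _)
              (i4.const_mul b) (Eventually.of_forall fun x => ?_)
            simp only [abs_mul]
            exact mul_le_mul_of_nonneg_right (hfb x) (abs_nonneg _)
        _ = b * ∫ x, |lap χ x| := integral_const_mul _ _
        _ ≤ b * C := mul_le_mul_of_nonneg_left hχC hb0
    have b1 := abs_le.1 (bnd W (Real.exp B) hWc hWb (Real.exp_pos _).le)
    have b2 := abs_le.1 (bnd t B ht htB hB0)
    have b3 : ∫ x, qq j p n x * χ x ≤ ∫ x, qq j p n x := by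
      refine integral_mono_of_nonneg (Eventually.of_forall fun x =>
        mul_nonneg (qq_nonneg j p n x) (hχ01 x).1) (integrable_qq j p n)
        (Eventually.of_forall fun x => ?_)
      have := mul_le_mul_of_nonneg_left (hχ01 x).2 (qq_nonneg j p n x)
      simpa using this
    rw [e2, hI]
    have he4 : 0 ≤ e / 4 := by positivity
    nlinarith [mul_le_mul_of_nonneg_left b3 he4, mul_le_mul_of_nonneg_left b2.1 he4, b1.2]
  have hcov := aecover_closedBall (μ := (volume : Measure (Eu 2))) (x := (0 : Eu 2))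
    (tendsto_id (α := ℝ) (x := atTop))
  refine hcov.integrable_of_integral_bounded_of_nonneg_ae I (fun R => ?_)
    (Eventually.of_forall hF0) ?_
  · exact (hF.continuousOn.integrableOn_compact (isCompact_closedBall _ _))
  · filter_upwards [eventually_gt_atTop (0 : ℝ)] with R hR
    exact key R hR

end Pool.Agent.H172R3.GS
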